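import Pool.Agent.Lib.MP_2c9a54_an.Defs

/-!
# Basic facts and the lower comparison
-/

namespace Pool.Agent.Lib.MP_2c9a54_an

open Finset

variable {B X : ℕ → ℝ}

theorem sol_pos (hB : ∀ n, 0 ≤ B n) (hX : IsSol B X) : ∀ n, 0 < X n := by
  have h : ∀ n, 0 < X n ∧ 0 < X (n + 1) := by
    intro n
    induction n with
    | zero => exact ⟨hX.1, hX.2.1⟩
    | succ n ih =>
      refine ⟨ih.2, ?_⟩
      rw [hX.2.2 n]
      have := mul_nonneg (hB n) ih.2.le
      have := ih.1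
      positivity
  exact fun n => (h n).1

theorem den_pos (hB : ∀ n, 0 ≤ B n) (hX : IsSol B X) (n : ℕ) :
    0 < B n * X (n + 1) + X n := by
  have h1 := mul_nonneg (hB n) (sol_pos hB hX (n + 1)).le
  have h2 := sol_pos hB hX n
  linarith

theorem inv_eq (hX : IsSol B X) (n : ℕ) : (X (n + 2))⁻¹ = B n * X (n + 1) + X n := by
  rw [hX.2.2 n, one_div, inv_inv]

/-- the recurrence in product form -/
theorem mul_eq (hB : ∀ n, 0 ≤ B n) (hX : IsSol B X) (n : ℕ) :
    X (n + 2) * (B n * X (n + 1) + X n) = 1 := by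
  rw [hX.2.2 n, one_div, inv_mul_cancel₀ (den_pos hB hX n).ne']

theorem eq_inv_of_zero (hX : IsSol B X) {n : ℕ} (h : B n = 0) : X (n + 2) = (X n)⁻¹ := by
  rw [hX.2.2 n, h]; simp

/-- A lower bound for `X` when it is bounded above. -/
theorem lower_of_bdd (hB : ∀ n, 0 ≤ B n) {β : ℝ} (hβ : ∀ n, B n ≤ β) (hX : IsSol B X)
    (hb : Bdd X) : ∃ c > 0, ∀ n, c ≤ X n := by
  obtain ⟨C, hC⟩ := hb
  have hpos := sol_pos hB hX
  have hCpos : 0 < C := (hpos 0).trans_le (hC 0)
  have hβ0 : 0 ≤ β := (hB 0).trans (hβ 0)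
  have hK : 0 < β * C + C := by positivity
  refine ⟨min (min (X 0) (X 1)) (β * C + C)⁻¹, by
    have := hpos 0; have := hpos 1; positivity, fun n => ?_⟩
  match n with
  | 0 => exact (min_le_left _ _).trans (min_le_left _ _)
  | 1 => exact (min_le_left _ _).trans (min_le_right _ _)
  | n + 2 =>
    refine (min_le_right _ _).trans ?_
    rw [inv_le_comm₀ hK (hpos _), inv_eq hX]
    have h1 : B n * X (n + 1) ≤ β * C :=
      mul_le_mul (hβ n) (hC _) (hpos _).le hβ0
    have := hC n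
    linarith

/-- The continued fraction with `B_p` replaced by `B_p + δ`. -/
noncomputable def cfd (B : ℕ → ℝ) (p : ℕ) (δ : ℝ) : ℕ → ℝ
  | 0 => B p + δ
  | j + 1 => B (p + 2 * (j + 1)) + 1 / cfd B p δ j

theorem cfd_zero_eq (p : ℕ) : ∀ j, cfd B p 0 j = cf B p j := by
  intro j
  induction j with
  | zero => simp [cfd, cf]
  | succ j ih => rw [cfd, cf, ih]

theorem cfd_pos (hB : ∀ n, 0 ≤ B n) {p : ℕ} {δ : ℝ} (hp : 0 < B p + δ) :
    ∀ j, 0 < cfd B p δ j := by
  intro j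
  induction j with
  | zero => exact hp
  | succ j ih =>
    rw [cfd]
    have := hB (p + 2 * (j + 1))
    positivity

theorem cf_pos (hB : ∀ n, 0 ≤ B n) {p : ℕ} (hp : 0 < B p) : ∀ j, 0 < cf B p j := by
  intro j
  rw [← cfd_zero_eq]
  exact cfd_pos hB (by simpa using hp) j

theorem cfd_lt (hB : ∀ n, 0 ≤ B n) {p : ℕ} {δ : ℝ} (hp : 0 < B p) (hδ : 0 < δ) :
    ∀ j, cf B p (2 * j) < cfd B p δ (2 * j) ∧ cfd B p δ (2 * j + 1) < cf B p (2 * j + 1) := by
  have hδp : 0 < B p + δ := by linarith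
  have step1 : ∀ i, cf B p i < cfd B p δ i → cfd B p δ (i + 1) < cf B p (i + 1) := by
    intro i hi
    rw [cfd, cf]
    have := one_div_lt_one_div_of_lt (cf_pos hB hp i) hi
    linarith
  have step2 : ∀ i, cfd B p δ i < cf B p i → cf B p (i + 1) < cfd B p δ (i + 1) := by
    intro i hi
    rw [cfd, cf]
    have := one_div_lt_one_div_of_lt (cfd_pos hB hδp i) hi
    linarith
  intro j
  induction j with
  | zero =>
    have h0 : cf B p 0 < cfd B p δ 0 := by rw [cf, cfd]; linarith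
    exact ⟨h0, step1 0 h0⟩
  | succ j ih =>
    have h0 : cf B p (2 * (j + 1)) < cfd B p δ (2 * (j + 1)) := step2 _ ih.2
    exact ⟨h0, step1 _ h0⟩

theorem cfd_shift {P : ℕ} (hP : ∀ n, B (n + P) = B n) (p : ℕ) (δ : ℝ) (j : ℕ) :
    cfd B (p + P) δ j = cfd B p δ j := by
  induction j with
  | zero => rw [cfd, cfd, hP]
  | succ j ih =>
    rw [cfd, cfd, ih, show p + P + 2 * (j + 1) = p + 2 * (j + 1) + P by ring, hP]

theorem cf_shift {P : ℕ} (hP : ∀ n, B (n + P) = B n) (p : ℕ) (j : ℕ) :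
    cf B (p + P) j = cf B p j := by
  rw [← cfd_zero_eq, ← cfd_zero_eq, cfd_shift hP]

theorem per_mul {k : ℕ} (hper : ∀ n, B (n + k) = B n) (m n : ℕ) : B (n + m * k) = B n := by
  induction m with
  | zero => simp
  | succ m ih =>
    rw [show n + (m + 1) * k = (n + m * k) + k by ring, hper, ih]

theorem per_modEq {k : ℕ} (hper : ∀ n, B (n + k) = B n) {m n : ℕ} (h : m ≡ n [MOD k]) :
    B m = B n := by
  rcases le_total m n with hle | hle
  · obtain ⟨c, hc⟩ := (Nat.modEq_iff_dvd' hle).mp h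
    have : n = m + c * k := by
      have h2 : n = m + (n - m) := by omega
      rw [h2, hc]; ring
    rw [this, per_mul hper]
  · obtain ⟨c, hc⟩ := (Nat.modEq_iff_dvd' hle).mp h.symm
    have : m = n + c * k := by
      have h2 : m = n + (m - n) := by omega
      rw [h2, hc]; ring
    rw [this, per_mul hper]

/-- A form of the class condition. -/
def ClassCondAux (B : ℕ → ℝ) : Prop :=
  ∀ r, (∀ j, B (r + 4 * j) = 0) → ∀ j, B (r + 2 + 4 * j) = 0

theorem classCondAux_of {k : ℕ} (hk : 1 ≤ k) (hper : ∀ n, B (n + k) = B n)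
    (h : ClassCond B) : ClassCondAux B := by
  intro r hr j
  have h1 : ∀ n, n % 4 = r % 4 → B n = 0 := by
    intro n hn
    -- shift `n` by a multiple of `4 k` beyond `r`
    have h2 : B (n + (4 * r) * k) = B n := per_mul hper _ _
    have h3 : r ≤ n + (4 * r) * k := by nlinarith
    have h4 : (n + (4 * r) * k) % 4 = r % 4 := by
      rw [mul_assoc, Nat.add_mul_mod_self_left]; exact hn
    obtain ⟨i, hi⟩ : ∃ i, n + (4 * r) * k = r + 4 * i := ⟨(n + (4 * r) * k - r) / 4, by omega⟩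
    rw [← h2, hi]
    exact hr i
  exact h (r % 4) (Nat.mod_lt _ (by norm_num)) h1 (r + 2 + 4 * j) (by omega)

theorem exists_of_not_classCond (h : ¬ ClassCond B) :
    ∃ r, (∀ j, B (r + 4 * j) = 0) ∧ ∃ n, n % 4 = (r + 2) % 4 ∧ B n ≠ 0 := by
  unfold ClassCond at h
  push Not at h
  obtain ⟨r, hr4, hr, n, hn, hBn⟩ := h
  exact ⟨r, fun j => hr _ (by omega), n, hn, hBn⟩

/-- A periodic coefficient sequence is bounded. -/
theorem exists_upper {k : ℕ} (hk : 1 ≤ k) (hper : ∀ n, B (n + k) = B n) :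
    ∃ β ≥ 1, ∀ n, B n ≤ β := by
  obtain ⟨C, hC⟩ := (Set.finite_range (fun i : Fin k => B i)).bddAbove
  refine ⟨max C 1, le_max_right _ _, fun n => le_trans ?_ (le_max_left _ _)⟩
  have h1 : B n = B (n % k) := per_modEq hper (Nat.mod_modEq n k).symm
  rw [h1]
  exact hC ⟨⟨n % k, Nat.mod_lt n hk⟩, rfl⟩

/-- **Lower comparison** along a positive block followed by zero blocks. -/
theorem lower_block (hB : ∀ n, 0 ≤ B n) (hX : IsSol B X) {p t : ℕ} {δ : ℝ}
    (hp : 0 < B p + δ) (hδ : δ * X (p + 1) ≤ X p) (ht : ∀ j < t, B (p + 3 + 4 * j) = 0) :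
    ∀ j ≤ t, X (p + 3 + 4 * j) ≤ (X (p + 1))⁻¹ ∧
      X (p + 1) / cfd B p δ (2 * j + 1) ≤ X (p + 4 + 4 * j) := by
  have hpos := sol_pos hB hX
  set L := X (p + 1) with hL
  have hLpos : 0 < L := hpos _
  have hc := cfd_pos hB hp
  intro j
  induction j with
  | zero =>
    intro _
    have e2 : X (p + 2) ≤ ((B p + δ) * L)⁻¹ := by
      rw [le_inv_comm₀ (hpos _) (by positivity), inv_eq hX]
      nlinarith
    have e3 : X (p + 3) ≤ L⁻¹ := by
      rw [le_inv_comm₀ (hpos _) hLpos, inv_eq hX]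
      have := mul_nonneg (hB (p + 1)) (hpos (p + 1 + 1)).le
      linarith
    refine ⟨by simpa using e3, ?_⟩
    have hc1 : cfd B p δ (2 * 0 + 1) = B (p + 2) + 1 / (B p + δ) := by
      simp [cfd]
    show L / cfd B p δ (2 * 0 + 1) ≤ X (p + 2 + 2)
    have hc1pos : 0 < B (p + 2) + 1 / (B p + δ) := by rw [← hc1]; exact hc _
    rw [hc1, ← inv_le_inv₀ (hpos _) (by positivity), inv_eq hX, inv_div]
    have h1 : B (p + 2) * X (p + 3) ≤ B (p + 2) * L⁻¹ :=
      mul_le_mul_of_nonneg_left e3 (hB _)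
    have h2 : (B (p + 2) + 1 / (B p + δ)) / L = B (p + 2) * L⁻¹ + ((B p + δ) * L)⁻¹ := by
      field_simp
    rw [h2]
    exact add_le_add h1 e2
  | succ j ih =>
    intro hj
    obtain ⟨ih1, ih2⟩ := ih (by omega)
    have hBq := ht j (by omega)
    set q := p + 3 + 4 * j with hq
    have hq1 : p + 4 + 4 * j = q + 1 := by omega
    rw [hq1] at ih2
    set c := cfd B p δ (2 * j + 1) with hcdef
    have hcpos : 0 < c := hc _
    have e2 : X (q + 2) = (X q)⁻¹ := eq_inv_of_zero hX hBq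
    have e2' : L ≤ X (q + 2) := by
      rw [e2, le_inv_comm₀ hLpos (hpos _)]; exact ih1
    -- X (q+3) ≤ 1 / (L c')
    have hc' : cfd B p δ (2 * j + 2) = B (q + 1) + 1 / c := by
      rw [cfd, show p + 2 * (2 * j + 1 + 1) = q + 1 by omega]
    have hc'pos : 0 < B (q + 1) + 1 / c := by rw [← hc']; exact hc _
    have e3 : X (q + 3) ≤ (L * (B (q + 1) + 1 / c))⁻¹ := by
      rw [le_inv_comm₀ (hpos _) (by positivity), show q + 3 = q + 1 + 2 by ring, inv_eq hX]
      have h1 : B (q + 1) * L ≤ B (q + 1) * X (q + 2) := mul_le_mul_of_nonneg_left e2' (hB _)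
      have h2 : L * (B (q + 1) + 1 / c) = B (q + 1) * L + L / c := by ring
      rw [h2]
      exact add_le_add h1 ih2
    -- X (q+4) ≤ 1 / L
    have e4 : X (q + 4) ≤ L⁻¹ := by
      rw [le_inv_comm₀ (hpos _) hLpos, show q + 4 = q + 2 + 2 by ring, inv_eq hX]
      have := mul_nonneg (hB (q + 2)) (hpos (q + 2 + 1)).le
      linarith
    refine ⟨?_, ?_⟩
    · rw [show p + 3 + 4 * (j + 1) = q + 4 by omega]; exact e4
    · rw [show p + 4 + 4 * (j + 1) = q + 3 + 2 by omega]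
      have hc'' : cfd B p δ (2 * (j + 1) + 1) = B (q + 3) + 1 / (B (q + 1) + 1 / c) := by
        rw [← hc', show 2 * (j + 1) + 1 = 2 * j + 2 + 1 by ring, cfd,
          show p + 2 * (2 * j + 2 + 1) = q + 3 by omega]
      have hc''pos : 0 < B (q + 3) + 1 / (B (q + 1) + 1 / c) := by rw [← hc'']; exact hc _
      rw [hc'', ← inv_le_inv₀ (hpos _) (by positivity), inv_eq hX, inv_div]
      have h1 : B (q + 3) * X (q + 4) ≤ B (q + 3) * L⁻¹ := mul_le_mul_of_nonneg_left e4 (hB _)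
      have h2 : (B (q + 3) + 1 / (B (q + 1) + 1 / c)) / L =
          B (q + 3) * L⁻¹ + (L * (B (q + 1) + 1 / c))⁻¹ := by
        rw [mul_inv, add_div, one_div]
        ring
      rw [h2]
      exact add_le_add h1 e3

end Pool.Agent.Lib.MP_2c9a54_an
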