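import Pool.Agent.Lib.MP_2c9a54_an.Basic

/-!
# Boundedness when `B` vanishes on a residue class modulo four
-/

namespace Pool.Agent.Lib.MP_2c9a54_an

open Finset

variable {B X : ℕ → ℝ}

theorem bdd_of_tail {X : ℕ → ℝ} (r : ℕ) (h : ∃ C, ∀ n ≥ r, X n ≤ C) : Bdd X := by
  obtain ⟨C, hC⟩ := h
  obtain ⟨D, hD⟩ := (Set.finite_range (fun i : Fin r => X i)).bddAbove
  refine ⟨max C D, fun n => ?_⟩
  by_cases hn : r ≤ n
  · exact (hC n hn).trans (le_max_left _ _)
  · exact (hD ⟨⟨n, by omega⟩, rfl⟩).trans (le_max_right _ _)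

/-- If a sequence grows by at most `D` in each step and is reset below `Q` along a residue class
modulo `k`, it is bounded. -/
theorem bdd_of_reset {u : ℕ → ℝ} {D Q : ℝ} (hD : 0 ≤ D) {k : ℕ} (hk : 1 ≤ k) {s : ℕ}
    (hu : ∀ j, u (j + 1) ≤ u j + D) (hres : ∀ j, j ≡ s [MOD k] → u (j + 1) ≤ Q) :
    ∀ j, u j ≤ max (u 0) Q + k * D := by
  have hsteps : ∀ i j, u (j + i) ≤ u j + i * D := by
    intro i j
    induction i with
    | zero => simp
    | succ i ih =>
      have := hu (j + i)
      push_cast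
      rw [← add_assoc]
      linarith
  intro j
  obtain ⟨i, hik, hij, hi⟩ : ∃ i ≤ k, i ≤ j ∧ u (j - i) ≤ max (u 0) Q := by
    by_cases hj : j < k
    · exact ⟨j, hj.le, le_rfl, by simp⟩
    · push Not at hj
      -- find `j' ∈ [j - k, j - 1]` congruent to `s`
      let d := (j - 1 + (k - s % k)) % k
      have hd : d < k := Nat.mod_lt _ hk
      have hs : s % k < k := Nat.mod_lt _ hk
      refine ⟨d, hd.le, by omega, ?_⟩
      have h1 : j - d = (j - 1 - d) + 1 := by omega
      have h2 : j - 1 - d ≡ s [MOD k] := by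
        have e1 : (j - 1 - d) + d + (k - s % k) = j - 1 + (k - s % k) := by omega
        have e2 : (j - 1 - d) + d + (k - s % k) ≡ d [MOD k] := by
          rw [e1]; exact (Nat.mod_modEq _ _).symm
        have e3 : (j - 1 - d) + (k - s % k) + d ≡ 0 + d [MOD k] := by
          rw [zero_add, show (j - 1 - d) + (k - s % k) + d = (j - 1 - d) + d + (k - s % k) by ring]
          exact e2
        have e4 : (j - 1 - d) + (k - s % k) ≡ 0 [MOD k] := Nat.ModEq.add_right_cancel' d e3
        have e5 : (j - 1 - d) + (k - s % k) + s % k ≡ 0 + s % k [MOD k] := e4.add_right _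
        have e6 : (j - 1 - d) + (k - s % k) + s % k = (j - 1 - d) + k := by omega
        rw [e6, zero_add] at e5
        have e7 : (j - 1 - d) + k ≡ j - 1 - d [MOD k] := by
          simp [Nat.ModEq]
        exact (e7.symm.trans e5).trans (Nat.mod_modEq _ _)
      rw [h1]
      exact (hres _ h2).trans (le_max_right _ _)
  have h1 := hsteps i (j - i)
  rw [show j - i + i = j by omega] at h1
  have h2 : (i : ℝ) * D ≤ k * D := mul_le_mul_of_nonneg_right (by exact_mod_cast hik) hD
  linarith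

theorem alt_bound {u : ℕ → ℝ} (h : ∀ i, u (i + 1) = (u i)⁻¹) :
    ∀ i, u i ≤ max (u 0) (u 0)⁻¹ ∧ (u i)⁻¹ ≤ max (u 0) (u 0)⁻¹ := by
  intro i
  induction i with
  | zero => exact ⟨le_max_left _ _, le_max_right _ _⟩
  | succ i ih => rw [h, inv_inv]; exact ⟨ih.2, ih.1⟩

/-- Boundedness in case `B` vanishes on a residue class modulo four. -/
theorem bdd_of_zero_class {k : ℕ} (hk : 1 ≤ k) (hB : ∀ n, 0 ≤ B n) (hper : ∀ n, B (n + k) = B n)
    (hcls : ClassCondAux B) {r : ℕ} (hr : ∀ j, B (r + 4 * j) = 0) (hX : IsSol B X) : Bdd X := by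
  obtain ⟨β, hβ1, hβ⟩ := exists_upper hk hper
  have hpos := sol_pos hB hX
  have hr2 := hcls r hr
  have hzero : ∀ i, B (r + 2 * i) = 0 := by
    intro i
    rcases Nat.even_or_odd' i with ⟨j, rfl | rfl⟩
    · rw [show r + 2 * (2 * j) = r + 4 * j by ring]; exact hr j
    · rw [show r + 2 * (2 * j + 1) = r + 2 + 4 * j by ring]; exact hr2 j
  -- the first parity class alternates
  have halt : ∀ i, X (r + 2 * (i + 1)) = (X (r + 2 * i))⁻¹ := by
    intro i
    rw [show r + 2 * (i + 1) = r + 2 * i + 2 by ring]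
    exact eq_inv_of_zero hX (hzero i)
  have hbd := alt_bound (u := fun i => X (r + 2 * i)) halt
  set A := max (X (r + 2 * 0)) (X (r + 2 * 0))⁻¹ with hA
  have hApos : 0 < A := lt_of_lt_of_le (hpos _) (le_max_left _ _)
  have hbd' : ∀ i, X (r + 2 * i) ≤ A ∧ (X (r + 2 * i))⁻¹ ≤ A := hbd
  have hlowA : ∀ i, A⁻¹ ≤ X (r + 2 * i) := by
    intro i
    rw [inv_le_comm₀ hApos (hpos _)]
    exact (hbd' i).2
  -- the second parity class
  have hstep : ∀ i, X (r + 1 + 2 * (i + 2)) ≤ X (r + 1 + 2 * i) + β * A := by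
    intro i
    have e1 : X (r + 1 + 2 * (i + 2)) ≤ (X (r + 1 + 2 * (i + 1)))⁻¹ := by
      rw [le_inv_comm₀ (hpos _) (hpos _), show r + 1 + 2 * (i + 2) = r + 1 + 2 * (i + 1) + 2 by ring,
        inv_eq hX]
      have := mul_nonneg (hB (r + 1 + 2 * (i + 1))) (hpos (r + 1 + 2 * (i + 1) + 1)).le
      linarith
    have e2 : (X (r + 1 + 2 * (i + 1)))⁻¹ =
        B (r + 1 + 2 * i) * X (r + 2 * (i + 1)) + X (r + 1 + 2 * i) := by
      rw [show r + 1 + 2 * (i + 1) = r + 1 + 2 * i + 2 by ring, inv_eq hX,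
        show r + 1 + 2 * i + 1 = r + 2 * (i + 1) by ring]
    have e3 : B (r + 1 + 2 * i) * X (r + 2 * (i + 1)) ≤ β * A :=
      mul_le_mul (hβ _) (hbd' _).1 (hpos _).le (by linarith)
    linarith
  have hreset : ∀ i, 0 < B (r + 1 + 2 * (i + 1)) →
      X (r + 1 + 2 * (i + 2)) ≤ A / B (r + 1 + 2 * (i + 1)) := by
    intro i hi
    have e1 : B (r + 1 + 2 * (i + 1)) * A⁻¹ ≤ (X (r + 1 + 2 * (i + 2)))⁻¹ := by
      rw [show r + 1 + 2 * (i + 2) = r + 1 + 2 * (i + 1) + 2 by ring, inv_eq hX,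
        show r + 1 + 2 * (i + 1) + 1 = r + 2 * (i + 2) by ring]
      have := mul_le_mul_of_nonneg_left (hlowA (i + 2)) hi.le
      have := hpos (r + 1 + 2 * (i + 1))
      linarith
    rw [le_inv_comm₀ (by positivity) (hpos _)] at e1
    refine e1.trans (le_of_eq ?_)
    rw [mul_inv, inv_inv]
    field_simp
  -- boundedness of the second class
  have hsecond : ∃ C, ∀ i, X (r + 1 + 2 * i) ≤ C := by
    by_cases hz : ∀ j, B (r + 1 + 4 * j) = 0
    · have hz2 := hcls (r + 1) hz
      have hzero' : ∀ i, B (r + 1 + 2 * i) = 0 := by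
        intro i
        rcases Nat.even_or_odd' i with ⟨j, rfl | rfl⟩
        · rw [show r + 1 + 2 * (2 * j) = r + 1 + 4 * j by ring]; exact hz j
        · rw [show r + 1 + 2 * (2 * j + 1) = r + 1 + 2 + 4 * j by ring]; exact hz2 j
      have halt' : ∀ i, X (r + 1 + 2 * (i + 1)) = (X (r + 1 + 2 * i))⁻¹ := by
        intro i
        rw [show r + 1 + 2 * (i + 1) = r + 1 + 2 * i + 2 by ring]
        exact eq_inv_of_zero hX (hzero' i)
      exact ⟨_, fun i => (alt_bound (u := fun i => X (r + 1 + 2 * i))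
        halt' i).1⟩
    · push Not at hz
      obtain ⟨j₀, hj₀⟩ := hz
      obtain ⟨j₁, hj₁⟩ : ∃ j₁, B (r + 3 + 4 * j₁) ≠ 0 := by
        by_contra hcon
        push Not at hcon
        have h5 := hcls (r + 3) hcon (j₀ + k - 1)
        apply hj₀
        rw [← h5, show r + 3 + 2 + 4 * (j₀ + k - 1) = r + 1 + 4 * j₀ + 4 * k by omega]
        exact (per_mul hper 4 _).symm
      have hj₀' : 0 < B (r + 1 + 4 * j₀) := lt_of_le_of_ne (hB _) (Ne.symm hj₀)
      have hj₁' : 0 < B (r + 3 + 4 * j₁) := lt_of_le_of_ne (hB _) (Ne.symm hj₁)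
      have hDnn : 0 ≤ β * A := by positivity
      -- even subsequence
      have he := bdd_of_reset (u := fun j => X (r + 1 + 2 * (2 * j))) (D := β * A)
        (Q := A / B (r + 3 + 4 * j₁)) hDnn hk (s := j₁)
        (fun j => by
          have := hstep (2 * j)
          show X (r + 1 + 2 * (2 * (j + 1))) ≤ _
          rw [show 2 * (j + 1) = 2 * j + 2 by ring]
          exact this)
        (fun j hj => by
          have hBj : B (r + 1 + 2 * (2 * j + 1)) = B (r + 3 + 4 * j₁) := by
            rw [show r + 1 + 2 * (2 * j + 1) = r + 3 + 4 * j by ring]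
            exact per_modEq hper ((hj.mul_left 4).add_left _)
          have := hreset (2 * j) (by rw [hBj]; exact hj₁')
          rw [hBj] at this
          show X (r + 1 + 2 * (2 * (j + 1))) ≤ _
          rw [show 2 * (j + 1) = 2 * j + 2 by ring]
          exact this)
      -- odd subsequence
      have ho := bdd_of_reset (u := fun j => X (r + 1 + 2 * (2 * j + 1))) (D := β * A)
        (Q := A / B (r + 1 + 4 * j₀)) hDnn hk (s := j₀ + k - 1)
        (fun j => by
          have := hstep (2 * j + 1)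
          show X (r + 1 + 2 * (2 * (j + 1) + 1)) ≤ _
          rw [show 2 * (j + 1) + 1 = 2 * j + 1 + 2 by ring]
          exact this)
        (fun j hj => by
          have hBj : B (r + 1 + 2 * (2 * j + 1 + 1)) = B (r + 1 + 4 * j₀) := by
            rw [show r + 1 + 2 * (2 * j + 1 + 1) = r + 1 + 4 * (j + 1) by ring]
            refine per_modEq hper (Nat.ModEq.add_left _ (Nat.ModEq.mul_left 4 ?_))
            have h1 : j + 1 ≡ j₀ + k - 1 + 1 [MOD k] := hj.add_right 1
            rw [show j₀ + k - 1 + 1 = j₀ + k by omega] at h1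
            exact h1.trans (by simp [Nat.ModEq])
          have := hreset (2 * j + 1) (by rw [hBj]; exact hj₀')
          rw [hBj] at this
          show X (r + 1 + 2 * (2 * (j + 1) + 1)) ≤ _
          rw [show 2 * (j + 1) + 1 = 2 * j + 1 + 2 by ring]
          exact this)
      refine ⟨max (max (X (r + 1 + 2 * (2 * 0))) (A / B (r + 3 + 4 * j₁)) + k * (β * A))
        (max (X (r + 1 + 2 * (2 * 0 + 1))) (A / B (r + 1 + 4 * j₀)) + k * (β * A)), fun i => ?_⟩
      rcases Nat.even_or_odd' i with ⟨j, rfl | rfl⟩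
      · exact (he j).trans (le_max_left _ _)
      · exact (ho j).trans (le_max_right _ _)
  obtain ⟨C, hC⟩ := hsecond
  refine bdd_of_tail r ⟨max A C, fun n hn => ?_⟩
  obtain ⟨m, rfl⟩ := Nat.exists_eq_add_of_le hn
  rcases Nat.even_or_odd' m with ⟨i, rfl | rfl⟩
  · exact (hbd' i).1.trans (le_max_left _ _)
  · rw [show r + (2 * i + 1) = r + 1 + 2 * i by ring]
    exact (hC i).trans (le_max_right _ _)

end Pool.Agent.Lib.MP_2c9a54_an
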