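import Pool.Agent.Lib.MP_2c9a54_an.Basic

/-!
# Boundedness when `B` vanishes on no residue class modulo four
-/

namespace Pool.Agent.Lib.MP_2c9a54_an

open Finset

variable {B X : ℕ → ℝ}

/-- Positive values of a periodic sequence are bounded away from zero. -/
theorem exists_lower {k : ℕ} (hk : 1 ≤ k) (hper : ∀ n, B (n + k) = B n) :
    ∃ b > 0, ∀ n, 0 < B n → b ≤ B n := by
  obtain ⟨C, hC1, hC⟩ := exists_upper (B := fun n => (B n)⁻¹) hk (fun n => by rw [hper])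
  refine ⟨C⁻¹, by positivity, fun n hn => ?_⟩
  rw [inv_le_comm₀ (by linarith) hn]
  exact hC n

theorem exists_Gamma (hB : ∀ n, 0 ≤ B n) {β : ℝ} (hβ1 : 1 ≤ β) (hβ : ∀ n, B n ≤ β) {b : ℝ}
    (hb : 0 < b) (hb' : ∀ n, 0 < B n → b ≤ B n) (N : ℕ) :
    ∃ Γ ≥ 1, ∀ p, 0 < B p → ∀ j ≤ N, cf B p j ≤ Γ ∧ Γ⁻¹ ≤ cf B p j := by
  induction N with
  | zero =>
    refine ⟨max β b⁻¹, hβ1.trans (le_max_left _ _), fun p hp j hj => ?_⟩
    obtain rfl : j = 0 := by omega
    rw [cf]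
    refine ⟨(hβ p).trans (le_max_left _ _), ?_⟩
    rw [inv_le_comm₀ (lt_of_lt_of_le (by linarith) (le_max_left _ _)) hp]
    exact ((inv_le_inv₀ hp hb).mpr (hb' p hp)).trans (le_max_right _ _)
  | succ N ih =>
    obtain ⟨Γ, hΓ1, hΓ⟩ := ih
    refine ⟨Γ + β, by linarith, fun p hp j hj => ?_⟩
    have hΓpos : 0 < Γ := by linarith
    rcases Nat.lt_or_ge j (N + 1) with hjN | hjN
    · obtain ⟨h1, h2⟩ := hΓ p hp j (by omega)
      refine ⟨by linarith, le_trans ?_ h2⟩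
      exact (inv_le_inv₀ (by linarith) hΓpos).mpr (by linarith)
    · obtain rfl : j = N + 1 := by omega
      obtain ⟨h1, h2⟩ := hΓ p hp N le_rfl
      have hc := cf_pos hB hp N
      have h3 : 1 / cf B p N ≤ Γ := by
        rw [one_div, inv_le_comm₀ hc hΓpos]; exact h2
      have h4 : Γ⁻¹ ≤ 1 / cf B p N := by
        rw [one_div]; exact (inv_le_inv₀ hΓpos hc).mpr h1
      rw [cf]
      refine ⟨by linarith [hβ (p + 2 * (N + 1))], ?_⟩
      have h5 : (Γ + β)⁻¹ ≤ Γ⁻¹ := (inv_le_inv₀ (by linarith) hΓpos).mpr (by linarith)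
      linarith [hB (p + 2 * (N + 1))]

/-! ### The block map -/

open Classical in
/-- The number of zero blocks after a positive block at `p`. -/
noncomputable def zr (h : ∀ r, ∃ j, B (r + 4 * j) ≠ 0) (p : ℕ) : ℕ := Nat.find (h (p + 3))

/-- The next positive position. -/
noncomputable def nxt (h : ∀ r, ∃ j, B (r + 4 * j) ≠ 0) (p : ℕ) : ℕ := p + 3 + 4 * zr h p

theorem zr_zero (h : ∀ r, ∃ j, B (r + 4 * j) ≠ 0) (p : ℕ) : ∀ j < zr h p, B (p + 3 + 4 * j) = 0 := by
  classical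
  intro j hj
  have := Nat.find_min (h (p + 3)) hj
  push Not at this
  exact this

theorem nxt_pos (hB : ∀ n, 0 ≤ B n) (h : ∀ r, ∃ j, B (r + 4 * j) ≠ 0) (p : ℕ) :
    0 < B (nxt h p) := by
  classical
  exact lt_of_le_of_ne (hB _) (Ne.symm (Nat.find_spec (h (p + 3))))

theorem exists_lt_period {k : ℕ} (hk : 1 ≤ k) (hper : ∀ n, B (n + k) = B n)
    (h : ∀ r, ∃ j, B (r + 4 * j) ≠ 0) (r : ℕ) : ∃ j < k, B (r + 4 * j) ≠ 0 := by
  obtain ⟨j, hj⟩ := h r
  refine ⟨j % k, Nat.mod_lt _ hk, ?_⟩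
  have : B (r + 4 * (j % k)) = B (r + 4 * j) :=
    per_modEq hper (((Nat.mod_modEq j k).mul_left 4).add_left r)
  rw [this]; exact hj

theorem zr_lt {k : ℕ} (hk : 1 ≤ k) (hper : ∀ n, B (n + k) = B n)
    (h : ∀ r, ∃ j, B (r + 4 * j) ≠ 0) (p : ℕ) : zr h p < k := by
  classical
  obtain ⟨j, hj, hB⟩ := exists_lt_period hk hper h (p + 3)
  exact lt_of_le_of_lt (Nat.find_min' _ hB) hj

theorem zr_modEq {k : ℕ} (hper : ∀ n, B (n + k) = B n) (h : ∀ r, ∃ j, B (r + 4 * j) ≠ 0)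
    {p q : ℕ} (hpq : p ≡ q [MOD k]) : zr h p = zr h q := by
  classical
  have key : ∀ j, B (p + 3 + 4 * j) = B (q + 3 + 4 * j) := fun j =>
    per_modEq hper ((hpq.add_right 3).add_right (4 * j))
  unfold zr
  congr 1
  funext j
  rw [key j]

theorem nxt_modEq {k : ℕ} (hper : ∀ n, B (n + k) = B n) (h : ∀ r, ∃ j, B (r + 4 * j) ≠ 0)
    {p q : ℕ} (hpq : p ≡ q [MOD k]) : nxt h p ≡ nxt h q [MOD k] := by
  unfold nxt
  rw [zr_modEq hper h hpq]
  exact (hpq.add_right 3).add_right _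

theorem iter_modEq {k : ℕ} (hper : ∀ n, B (n + k) = B n) (h : ∀ r, ∃ j, B (r + 4 * j) ≠ 0)
    {p q : ℕ} (hpq : p ≡ q [MOD k]) (i : ℕ) : (nxt h)^[i] p ≡ (nxt h)^[i] q [MOD k] := by
  induction i with
  | zero => exact hpq
  | succ i ih =>
    rw [Function.iterate_succ_apply', Function.iterate_succ_apply']
    exact nxt_modEq hper h ih

theorem iter_pos (hB : ∀ n, 0 ≤ B n) (h : ∀ r, ∃ j, B (r + 4 * j) ≠ 0) {p : ℕ} (hp : 0 < B p)
    (i : ℕ) : 0 < B ((nxt h)^[i] p) := by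
  cases i with
  | zero => exact hp
  | succ i =>
    rw [Function.iterate_succ_apply']
    exact nxt_pos hB h _

theorem iter_lt (h : ∀ r, ∃ j, B (r + 4 * j) ≠ 0) (p i : ℕ) :
    (nxt h)^[i] p < (nxt h)^[i + 1] p := by
  rw [Function.iterate_succ_apply']
  unfold nxt
  omega

/-- The factor of a block. -/
noncomputable def gf (h : ∀ r, ∃ j, B (r + 4 * j) ≠ 0) (p : ℕ) : ℝ := cf B p (2 * zr h p + 1)

theorem cf_modEq {k : ℕ} (hper : ∀ n, B (n + k) = B n) {p q : ℕ} (hpq : p ≡ q [MOD k]) (j : ℕ) :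
    cf B p j = cf B q j := by
  induction j with
  | zero => exact per_modEq hper hpq
  | succ j ih =>
    rw [cf, cf, ih, per_modEq hper (hpq.add_right (2 * (j + 1)))]

theorem gf_modEq {k : ℕ} (hper : ∀ n, B (n + k) = B n) (h : ∀ r, ∃ j, B (r + 4 * j) ≠ 0)
    {p q : ℕ} (hpq : p ≡ q [MOD k]) : gf h p = gf h q := by
  unfold gf
  rw [zr_modEq hper h hpq, cf_modEq hper hpq]

/-- The product of the growth factors along the first `j` blocks. -/
noncomputable def Wp (h : ∀ r, ∃ j, B (r + 4 * j) ≠ 0) (F : ℝ) (p j : ℕ) : ℝ :=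
  ∏ i ∈ range j, (F / gf h ((nxt h)^[i] p))

theorem Wp_add (h : ∀ r, ∃ j, B (r + 4 * j) ≠ 0) (F : ℝ) (p m n : ℕ) :
    Wp h F p (m + n) = Wp h F p m * Wp h F ((nxt h)^[m] p) n := by
  unfold Wp
  rw [prod_range_add]
  congr 1
  refine prod_congr rfl fun i _ => ?_
  rw [Nat.add_comm m i, Function.iterate_add_apply]

theorem Wp_modEq {k : ℕ} (hper : ∀ n, B (n + k) = B n) (h : ∀ r, ∃ j, B (r + 4 * j) ≠ 0)
    (F : ℝ) {p q : ℕ} (hpq : p ≡ q [MOD k]) (j : ℕ) : Wp h F p j = Wp h F q j := by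
  unfold Wp
  refine prod_congr rfl fun i _ => ?_
  rw [gf_modEq hper h (iter_modEq hper h hpq i)]

theorem gf_pos (hB : ∀ n, 0 ≤ B n) (h : ∀ r, ∃ j, B (r + 4 * j) ≠ 0) {p : ℕ} (hp : 0 < B p) :
    0 < gf h p := cf_pos hB hp _

theorem Wp_pos (hB : ∀ n, 0 ≤ B n) (h : ∀ r, ∃ j, B (r + 4 * j) ≠ 0) {F : ℝ} (hF : 0 < F)
    {p : ℕ} (hp : 0 < B p) (j : ℕ) : 0 < Wp h F p j :=
  prod_pos fun i _ => div_pos hF (gf_pos hB h (iter_pos hB h hp i))

/-- Choice of the error factor `E`. -/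
theorem exists_E {k : ℕ} (hk : 1 ≤ k) (hper : ∀ n, B (n + k) = B n) (hB : ∀ n, 0 ≤ B n)
    (h : ∀ r, ∃ j, B (r + 4 * j) ≠ 0) (hcyc : CycleCond k B) :
    ∃ E > 1, ∀ p, 0 < B p → ∀ J ≤ k, 1 ≤ J → (nxt h)^[J] p ≡ p [MOD k] →
      Wp h (E ^ (k + 1)) p J ≤ 1 := by
  have hev : ∀ᶠ E in nhdsWithin (1 : ℝ) (Set.Ioi 1), ∀ p ∈ range k, ∀ J ∈ range (k + 1),
      (0 < B p ∧ 1 ≤ J ∧ (nxt h)^[J] p ≡ p [MOD k]) →
      (E ^ (k + 1)) ^ J < ∏ i ∈ range J, gf h ((nxt h)^[i] p) := by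
    rw [Filter.eventually_all_finset]
    intro p hpk
    rw [Filter.eventually_all_finset]
    intro J hJk
    by_cases hc : 0 < B p ∧ 1 ≤ J ∧ (nxt h)^[J] p ≡ p [MOD k]
    · have h1 : 1 < ∏ i ∈ range J, gf h ((nxt h)^[i] p) := by
        refine hcyc J hc.2.1 (by have := mem_range.mp hJk; omega) (fun i => (nxt h)^[i] p)
          (fun i => zr h ((nxt h)^[i] p)) (mem_range.mp hpk) ?_ hc.2.2
        intro i _
        refine ⟨iter_pos hB h hc.1 i, zr_zero h _, ?_⟩
        show (nxt h)^[i + 1] p = _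
        rw [Function.iterate_succ_apply']
        rfl
      have h2 : Filter.Tendsto (fun E : ℝ => (E ^ (k + 1)) ^ J) (nhdsWithin 1 (Set.Ioi 1))
          (nhds 1) := by
        have h3 : Continuous (fun E : ℝ => (E ^ (k + 1)) ^ J) := by fun_prop
        have h4 := h3.tendsto 1
        simp only [one_pow] at h4
        exact h4.mono_left nhdsWithin_le_nhds
      filter_upwards [h2.eventually (gt_mem_nhds h1)] with E hE _
      exact hE
    · filter_upwards with E hE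
      exact absurd hE hc
  obtain ⟨E, hE, hE1⟩ := (hev.and self_mem_nhdsWithin).exists
  refine ⟨E, hE1, fun p hp J hJk hJ1 hmod => ?_⟩
  have hp0 : p % k ≡ p [MOD k] := Nat.mod_modEq _ _
  rw [← Wp_modEq hper h _ hp0]
  have hBp : B (p % k) = B p := per_modEq hper hp0
  have h1 := hE (p % k) (mem_range.mpr (Nat.mod_lt _ hk)) J (mem_range.mpr (by omega))
    ⟨by rw [hBp]; exact hp, hJ1, ((iter_modEq hper h hp0 J).trans hmod).trans hp0.symm⟩
  unfold Wp
  rw [prod_div_distrib, prod_const, card_range]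
  have h2 : 0 < ∏ i ∈ range J, gf h ((nxt h)^[i] (p % k)) :=
    prod_pos fun i _ => gf_pos hB h (iter_pos hB h (by rw [hBp]; exact hp) i)
  rw [div_le_one h2]
  exact h1.le

/-- Uniform bound on the products along block orbits. -/
theorem Wp_bound {k : ℕ} (hk : 1 ≤ k) (hper : ∀ n, B (n + k) = B n) (hB : ∀ n, 0 ≤ B n)
    (h : ∀ r, ∃ j, B (r + 4 * j) ≠ 0) {F G : ℝ} (hF : 0 < F) (hG : 1 ≤ G)
    (hFG : ∀ p, 0 < B p → F / gf h p ≤ G)
    (hcyc : ∀ p, 0 < B p → ∀ J ≤ k, 1 ≤ J → (nxt h)^[J] p ≡ p [MOD k] → Wp h F p J ≤ 1)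
    {p : ℕ} (hp : 0 < B p) : ∀ j, Wp h F p j ≤ G ^ k := by
  intro j
  induction j using Nat.strong_induction_on with
  | _ j ih =>
    rcases Nat.lt_or_ge k j with hj | hj
    · -- pigeonhole
      obtain ⟨a, ha, b, hb, hab, heq⟩ := exists_ne_map_eq_of_card_lt_of_maps_to
        (s := range (k + 1)) (t := range k) (f := fun i => ((nxt h)^[i] p) % k)
        (by rw [card_range, card_range]; omega)
        (fun i _ => by
          simp only [coe_range, Set.mem_Iio]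
          exact Nat.mod_lt _ hk)
      wlog hlt : a < b generalizing a b
      · exact this b hb a ha (Ne.symm hab) heq.symm (by omega)
      have hbk : b ≤ k := by have := mem_range.mp hb; omega
      have hmod : (nxt h)^[a] p ≡ (nxt h)^[b] p [MOD k] := heq
      set q := (nxt h)^[a] p with hq
      have hqpos : 0 < B q := iter_pos hB h hp a
      have hqb : (nxt h)^[b - a] q = (nxt h)^[b] p := by
        rw [hq, ← Function.iterate_add_apply]
        congr 2
        omega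
      have e1 : Wp h F p j = Wp h F p a * (Wp h F q (b - a) * Wp h F q (j - b)) := by
        rw [show j = a + ((b - a) + (j - b)) by omega, Wp_add, Wp_add, ← hq, hqb,
          Wp_modEq hper h F hmod.symm]
        congr 3
        omega
      have e2 : Wp h F p (a + (j - b)) = Wp h F p a * Wp h F q (j - b) := Wp_add _ _ _ _ _
      have h1 : Wp h F q (b - a) ≤ 1 :=
        hcyc q hqpos (b - a) (by omega) (by omega) (by rw [hqb]; exact hmod.symm)
      have h2 := ih (a + (j - b)) (by omega)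
      rw [e2] at h2
      rw [e1]
      refine le_trans ?_ h2
      refine mul_le_mul_of_nonneg_left ?_ (Wp_pos hB h hF hp a).le
      have h3 := (Wp_pos hB h hF hqpos (j - b)).le
      nlinarith
    · have h1 : Wp h F p j ≤ ∏ _i ∈ range j, G :=
        prod_le_prod (fun i _ => (div_pos hF (gf_pos hB h (iter_pos hB h hp i))).le)
          (fun i _ => hFG _ (iter_pos hB h hp i))
      rw [prod_const, card_range] at h1
      exact h1.trans (pow_le_pow_right₀ hG hj)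

/-! ### Upper comparison along blocks -/

/-- The constants used in the upper comparison. -/
structure Consts (B : ℕ → ℝ) (k : ℕ) (β b Γ E M : ℝ) : Prop where
  hβ1 : 1 ≤ β
  hβ : ∀ n, B n ≤ β
  hb : 0 < b
  hb' : ∀ n, 0 < B n → b ≤ B n
  hΓ1 : 1 ≤ Γ
  hΓ : ∀ p, 0 < B p → ∀ j ≤ 2 * k + 1, cf B p j ≤ Γ ∧ Γ⁻¹ ≤ cf B p j
  hE : 1 < E
  hM1 : 1 ≤ M
  hM2 : 1 ≤ (E - 1) * b * M
  hM3 : β ≤ (E - 1) * b * M ^ 2
  hM4 : β * Γ ≤ (E - 1) * M ^ 2

theorem upper_block_one {k : ℕ} {β b Γ E M : ℝ} (hc : Consts B k β b Γ E M)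
    (hB : ∀ n, 0 ≤ B n) (hX : IsSol B X) {p t : ℕ} (hp : 0 < B p) (hL : M ≤ X (p + 1))
    (htk : t ≤ k) (ht : ∀ j < t, B (p + 3 + 4 * j) = 0) :
    ∀ j ≤ t, (E ^ (j + 1) * X (p + 1))⁻¹ ≤ X (p + 3 + 4 * j) := by
  have hpos := sol_pos hB hX
  set L := X (p + 1) with hLdef
  have hLpos : 0 < L := hpos _
  have hE0 : 0 < E := by linarith [hc.hE]
  have hE1 : 0 < E - 1 := by linarith [hc.hE]
  have hM0 : 0 < M := by linarith [hc.hM1]
  have hΓ0 : 0 < Γ := by linarith [hc.hΓ1]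
  have hLsq : M ^ 2 ≤ L ^ 2 := pow_le_pow_left₀ hM0.le hL 2
  have hlow := lower_block hB hX (p := p) (t := t) (δ := 0) (by simpa using hp)
    (by have := (hpos p).le; simpa using this) ht
  intro j
  induction j with
  | zero =>
    intro _
    have e2 : X (p + 2) ≤ (b * L)⁻¹ := by
      rw [le_inv_comm₀ (hpos _) (mul_pos hc.hb hLpos), inv_eq hX]
      have := mul_le_mul_of_nonneg_right (hc.hb' p hp) hLpos.le
      have := (hpos p).le
      linarith
    have e3 : B (p + 1) * X (p + 2) ≤ (E - 1) * L := by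
      have h1 : B (p + 1) * X (p + 2) ≤ β * (b * L)⁻¹ :=
        mul_le_mul (hc.hβ _) e2 (hpos _).le (by linarith [hc.hβ1])
      have h2 : β * (b * L)⁻¹ ≤ (E - 1) * L := by
        rw [← div_eq_mul_inv, div_le_iff₀ (mul_pos hc.hb hLpos)]
        have h3 := hc.hM3
        have h4 : (E - 1) * b * M ^ 2 ≤ (E - 1) * b * L ^ 2 :=
          mul_le_mul_of_nonneg_left hLsq (mul_nonneg hE1.le hc.hb.le)
        nlinarith
      linarith
    rw [inv_le_comm₀ (by positivity) (hpos _)]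
    show (X (p + 1 + 2))⁻¹ ≤ _
    rw [inv_eq hX]
    simp only [zero_add, pow_one]
    show B (p + 1) * X (p + 2) + L ≤ E * L
    linarith
  | succ j ih =>
    intro hj
    have ih' := ih (by omega)
    obtain ⟨l1, l2⟩ := hlow j (by omega)
    have hBq := ht j (by omega)
    rw [cfd_zero_eq] at l2
    set q := p + 3 + 4 * j with hq
    have hq1 : p + 4 + 4 * j = q + 1 := by omega
    rw [hq1] at l2
    set c := cf B p (2 * j + 1) with hcdef
    have hcpos : 0 < c := cf_pos hB hp _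
    have hcΓ : c ≤ Γ := (hc.hΓ p hp (2 * j + 1) (by omega)).1
    have e2 : X (q + 2) = (X q)⁻¹ := eq_inv_of_zero hX hBq
    have e3 : X (q + 3) ≤ Γ / L := by
      have h1 : X (q + 3) ≤ (X (q + 1))⁻¹ := by
        rw [le_inv_comm₀ (hpos _) (hpos _), show q + 3 = q + 1 + 2 by ring, inv_eq hX]
        have := mul_nonneg (hB (q + 1)) (hpos (q + 1 + 1)).le
        linarith
      have h2 : (X (q + 1))⁻¹ ≤ (L / c)⁻¹ := (inv_le_inv₀ (hpos _) (by positivity)).mpr l2
      have h3 : (L / c)⁻¹ ≤ Γ / L := by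
        rw [inv_div]
        exact div_le_div_of_nonneg_right hcΓ hLpos.le
      linarith
    have e4 : B (q + 2) * X (q + 3) * X q ≤ E - 1 := by
      have h1 : B (q + 2) * X (q + 3) ≤ β * (Γ / L) :=
        mul_le_mul (hc.hβ _) e3 (hpos _).le (by linarith [hc.hβ1])
      have h2 : B (q + 2) * X (q + 3) * X q ≤ β * (Γ / L) * L⁻¹ :=
        mul_le_mul h1 l1 (hpos _).le (by have := hc.hβ1; positivity)
      have h3 : β * (Γ / L) * L⁻¹ ≤ E - 1 := by
        rw [show β * (Γ / L) * L⁻¹ = (β * Γ) / L ^ 2 by field_simp, div_le_iff₀ (by positivity)]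
        have h4 := hc.hM4
        have h5 : (E - 1) * M ^ 2 ≤ (E - 1) * L ^ 2 := mul_le_mul_of_nonneg_left hLsq hE1.le
        linarith
      linarith
    rw [show p + 3 + 4 * (j + 1) = q + 2 + 2 by omega, inv_le_comm₀ (by positivity) (hpos _),
      inv_eq hX, e2]
    show B (q + 2) * X (q + 3) + (X q)⁻¹ ≤ _
    have h6 : (X q)⁻¹ ≤ E ^ (j + 1) * L := by
      rw [inv_le_comm₀ (hpos _) (by positivity)]; exact ih'
    have h7 : B (q + 2) * X (q + 3) ≤ (E - 1) * (X q)⁻¹ := by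
      rw [← div_eq_mul_inv, le_div_iff₀ (hpos _)]; exact e4
    have h8 : B (q + 2) * X (q + 3) + (X q)⁻¹ ≤ E * (X q)⁻¹ := by linarith
    refine h8.trans ?_
    rw [show E ^ (j + 1 + 1) * L = E * (E ^ (j + 1) * L) by ring]
    exact mul_le_mul_of_nonneg_left h6 hE0.le

theorem upper_block_two {k : ℕ} {β b Γ E M : ℝ} (hc : Consts B k β b Γ E M)
    (hB : ∀ n, 0 ≤ B n) (hX : IsSol B X) {p t : ℕ} (hp : 0 < B p) (hL : M ≤ X (p + 1))
    (hs : X p ≤ 1) (htk : t ≤ k) (ht : ∀ j < t, B (p + 3 + 4 * j) = 0) :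
    ∀ j ≤ t, X (p + 4 + 4 * j) ≤ E ^ (j + 1) * X (p + 1) / cf B p (2 * j + 1) := by
  have hpos := sol_pos hB hX
  set L := X (p + 1) with hLdef
  have hLpos : 0 < L := hpos _
  have hE0 : 0 < E := by linarith [hc.hE]
  have hE1 : 0 < E - 1 := by linarith [hc.hE]
  have hM0 : 0 < M := by linarith [hc.hM1]
  have hone := upper_block_one hc hB hX hp hL htk ht
  intro j
  induction j with
  | zero =>
    intro _
    have h3 := hone 0 (by omega)
    simp only [zero_add, pow_one, mul_zero, add_zero] at h3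
    -- lower bound for X (p+2)
    have e2 : (E * (B p * L))⁻¹ ≤ X (p + 2) := by
      rw [inv_le_comm₀ (by positivity) (hpos _), inv_eq hX]
      have h1 : 1 ≤ (E - 1) * (B p * L) := by
        have h2 : (E - 1) * b * M ≤ (E - 1) * (B p * L) := by
          rw [mul_assoc]
          refine mul_le_mul_of_nonneg_left ?_ hE1.le
          exact mul_le_mul (hc.hb' p hp) hL hM0.le hp.le
        linarith [hc.hM2]
      show B p * L + X p ≤ _
      nlinarith
    have hc1 : cf B p (2 * 0 + 1) = B (p + 2) + 1 / B p := by simp [cf]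
    have hc1pos : 0 < B (p + 2) + 1 / B p := by rw [← hc1]; exact cf_pos hB hp _
    show X (p + 2 + 2) ≤ _
    rw [hc1, ← inv_le_inv₀ (by positivity) (hpos _), inv_eq hX, inv_div]
    have h4 : (B (p + 2) + 1 / B p) / (E ^ (0 + 1) * L) =
        B (p + 2) * (E * L)⁻¹ + (E * (B p * L))⁻¹ := by
      simp only [zero_add, pow_one]
      field_simp
    rw [h4]
    have h5 : B (p + 2) * (E * L)⁻¹ ≤ B (p + 2) * X (p + 2 + 1) :=
      mul_le_mul_of_nonneg_left h3 (hB _)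
    linarith
  | succ j ih =>
    intro hj
    have ih' := ih (by omega)
    have o1 := hone j (by omega)
    have o2 := hone (j + 1) hj
    have hBq := ht j (by omega)
    set q := p + 3 + 4 * j with hq
    have hq1 : p + 4 + 4 * j = q + 1 := by omega
    have hq4 : p + 3 + 4 * (j + 1) = q + 4 := by omega
    rw [hq1] at ih'
    rw [hq4] at o2
    set c := cf B p (2 * j + 1) with hcdef
    have hcpos : 0 < c := cf_pos hB hp _
    have hc' : cf B p (2 * j + 2) = B (q + 1) + 1 / c := by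
      rw [cf, show p + 2 * (2 * j + 1 + 1) = q + 1 by omega]
    have hc'pos : 0 < B (q + 1) + 1 / c := by rw [← hc']; exact cf_pos hB hp _
    have hc'' : cf B p (2 * (j + 1) + 1) = B (q + 3) + 1 / (B (q + 1) + 1 / c) := by
      rw [← hc', show 2 * (j + 1) + 1 = 2 * j + 2 + 1 by ring, cf,
        show p + 2 * (2 * j + 2 + 1) = q + 3 by omega]
    have hc''pos : 0 < B (q + 3) + 1 / (B (q + 1) + 1 / c) := by
      rw [← hc'']; exact cf_pos hB hp _
    have e2 : X (q + 2) = (X q)⁻¹ := eq_inv_of_zero hX hBq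
    have e2' : X (q + 2) ≤ E ^ (j + 1) * L := by
      rw [e2, inv_le_comm₀ (hpos _) (by positivity)]; exact o1
    -- lower bound for X (q+3)
    have e3 : (E ^ (j + 1) * L * (B (q + 1) + 1 / c))⁻¹ ≤ X (q + 3) := by
      rw [inv_le_comm₀ (by positivity) (hpos _), show q + 3 = q + 1 + 2 by ring, inv_eq hX]
      have h1 : B (q + 1) * X (q + 2) ≤ B (q + 1) * (E ^ (j + 1) * L) :=
        mul_le_mul_of_nonneg_left e2' (hB _)
      have h2 : E ^ (j + 1) * L * (B (q + 1) + 1 / c) =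
          B (q + 1) * (E ^ (j + 1) * L) + E ^ (j + 1) * L / c := by ring
      rw [h2]
      exact add_le_add h1 ih'
    have e3' : (E ^ (j + 1 + 1) * L * (B (q + 1) + 1 / c))⁻¹ ≤ X (q + 3) := by
      refine le_trans ?_ e3
      rw [inv_le_inv₀ (by positivity) (by positivity)]
      have h1 : E ^ (j + 1) ≤ E ^ (j + 1 + 1) :=
        pow_le_pow_right₀ hc.hE.le (by omega)
      have : 0 ≤ L * (B (q + 1) + 1 / c) := by positivity
      calc E ^ (j + 1) * L * (B (q + 1) + 1 / c)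
          = E ^ (j + 1) * (L * (B (q + 1) + 1 / c)) := by ring
        _ ≤ E ^ (j + 1 + 1) * (L * (B (q + 1) + 1 / c)) := mul_le_mul_of_nonneg_right h1 this
        _ = _ := by ring
    rw [show p + 4 + 4 * (j + 1) = q + 3 + 2 by omega, hc'', ← inv_le_inv₀ (by positivity) (hpos _),
      inv_eq hX, inv_div]
    have h1 : B (q + 3) * (E ^ (j + 1 + 1) * L)⁻¹ ≤ B (q + 3) * X (q + 4) :=
      mul_le_mul_of_nonneg_left o2 (hB _)
    have h2 : (B (q + 3) + 1 / (B (q + 1) + 1 / c)) / (E ^ (j + 1 + 1) * L) =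
        B (q + 3) * (E ^ (j + 1 + 1) * L)⁻¹ +
          (E ^ (j + 1 + 1) * L * (B (q + 1) + 1 / c))⁻¹ := by
      rw [mul_inv (E ^ (j + 1 + 1) * L), add_div, one_div]
      ring
    rw [h2]
    exact add_le_add h1 e3'

end Pool.Agent.Lib.MP_2c9a54_an
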