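import Pool.Agent.Lib.MP_2c9a54_an.CaseTwo

/-!
# Boundedness when `B` vanishes on no residue class modulo four: the main argument
-/

namespace Pool.Agent.Lib.MP_2c9a54_an

open Finset

variable {B X : ℕ → ℝ}

/-- The size of the state at time `n`. -/
noncomputable def rho (X : ℕ → ℝ) (n : ℕ) : ℝ :=
  max (max (X n) (X n)⁻¹) (max (X (n + 1)) (X (n + 1))⁻¹)

theorem rho_le_iff {n : ℕ} {R : ℝ} : rho X n ≤ R ↔
    X n ≤ R ∧ (X n)⁻¹ ≤ R ∧ X (n + 1) ≤ R ∧ (X (n + 1))⁻¹ ≤ R := by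
  unfold rho
  simp only [max_le_iff]
  tauto

theorem rho_parts (n : ℕ) : X n ≤ rho X n ∧ (X n)⁻¹ ≤ rho X n ∧ X (n + 1) ≤ rho X n ∧
    (X (n + 1))⁻¹ ≤ rho X n := rho_le_iff.mp le_rfl

theorem rho_pos (hB : ∀ n, 0 ≤ B n) (hX : IsSol B X) (n : ℕ) : 0 < rho X n :=
  (sol_pos hB hX n).trans_le (rho_parts n).1

theorem rho_succ (hB : ∀ n, 0 ≤ B n) {β : ℝ} (hβ1 : 1 ≤ β) (hβ : ∀ n, B n ≤ β) (hX : IsSol B X)
    (n : ℕ) : rho X (n + 1) ≤ (β + 1) * rho X n := by
  have hpos := sol_pos hB hX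
  have hr := rho_pos hB hX n
  obtain ⟨h1, h2, h3, h4⟩ := rho_parts (X := X) n
  rw [rho_le_iff]
  have hle : rho X n ≤ (β + 1) * rho X n := by nlinarith
  refine ⟨h3.trans hle, h4.trans hle, ?_, ?_⟩
  · refine le_trans ?_ (h2.trans hle)
    show X (n + 2) ≤ _
    rw [le_inv_comm₀ (hpos _) (hpos _), inv_eq hX]
    have := mul_nonneg (hB n) (hpos (n + 1)).le
    linarith
  · show (X (n + 2))⁻¹ ≤ _
    rw [inv_eq hX]
    have : B n * X (n + 1) ≤ β * rho X n := mul_le_mul (hβ n) h3 (hpos _).le (by linarith)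
    linarith

theorem rho_add (hB : ∀ n, 0 ≤ B n) {β : ℝ} (hβ1 : 1 ≤ β) (hβ : ∀ n, B n ≤ β) (hX : IsSol B X)
    (n i : ℕ) : rho X (n + i) ≤ (β + 1) ^ i * rho X n := by
  induction i with
  | zero => simp
  | succ i ih =>
    have h1 := rho_succ hB hβ1 hβ hX (n + i)
    have h2 : (β + 1) * rho X (n + i) ≤ (β + 1) * ((β + 1) ^ i * rho X n) :=
      mul_le_mul_of_nonneg_left ih (by linarith)
    calc rho X (n + (i + 1)) ≤ (β + 1) * rho X (n + i) := h1
      _ ≤ (β + 1) * ((β + 1) ^ i * rho X n) := h2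
      _ = (β + 1) ^ (i + 1) * rho X n := by ring

theorem rho_add_le (hB : ∀ n, 0 ≤ B n) {β : ℝ} (hβ1 : 1 ≤ β) (hβ : ∀ n, B n ≤ β)
    (hX : IsSol B X) {m n N : ℕ} (hmn : m ≤ n) (hN : n ≤ m + N) :
    rho X n ≤ (β + 1) ^ N * rho X m := by
  have h1 := rho_add hB hβ1 hβ hX m (n - m)
  rw [show m + (n - m) = n by omega] at h1
  refine h1.trans (mul_le_mul_of_nonneg_right ?_ (rho_pos hB hX m).le)
  exact pow_le_pow_right₀ (by linarith) (by omega)

/-- Going back from a large value along a residue class modulo four. -/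
theorem backtrack (hB : ∀ n, 0 ≤ B n) {β : ℝ} (hβ1 : 1 ≤ β) (hβ : ∀ n, B n ≤ β)
    (hX : IsSol B X) : ∀ (j m : ℕ) (Y : ℝ), 0 < Y → 0 < B m → Y ≤ X (m + 4 * j + 1) →
      ∃ p, m ≤ p ∧ p ≤ m + 4 * j ∧ 0 < B p ∧ Y / (2 * β) ^ j ≤ X (p + 1) := by
  have hpos := sol_pos hB hX
  intro j
  induction j with
  | zero =>
    intro m Y _ hm hY2
    exact ⟨m, le_rfl, by omega, hm, by simpa using hY2⟩
  | succ j ih =>
    intro m Y hY hm hY2
    have h2β : 1 ≤ 2 * β := by linarith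
    have e1 : X (m + 4 * j + 3) ≤ Y⁻¹ := by
      have h1 : (X (m + 4 * (j + 1) + 1))⁻¹ ≤ Y⁻¹ := (inv_le_inv₀ (hpos _) hY).mpr hY2
      rw [show m + 4 * (j + 1) + 1 = m + 4 * j + 3 + 2 by ring, inv_eq hX] at h1
      have := mul_nonneg (hB (m + 4 * j + 3)) (hpos (m + 4 * j + 3 + 1)).le
      linarith
    have e2 : Y ≤ B (m + 4 * j + 1) * X (m + 4 * j + 2) + X (m + 4 * j + 1) := by
      have h1 : Y ≤ (X (m + 4 * j + 1 + 2))⁻¹ := by
        rw [le_inv_comm₀ hY (hpos _)]; exact e1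
      rw [inv_eq hX] at h1
      exact h1
    by_cases hc : Y / 2 ≤ X (m + 4 * j + 1)
    · obtain ⟨p, hp1, hp2, hp3, hp4⟩ := ih m (Y / 2) (by linarith) hm hc
      refine ⟨p, hp1, by omega, hp3, le_trans ?_ hp4⟩
      rw [pow_succ, ← div_div, div_div, mul_comm _ (2 * β), ← div_div]
      apply div_le_div_of_nonneg_right _ (by positivity)
      rw [div_le_div_iff₀ (by linarith) (by norm_num)]
      nlinarith
    · push Not at hc
      have h1 : Y / 2 ≤ B (m + 4 * j + 1) * X (m + 4 * j + 2) := by linarith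
      have h2 : 0 < B (m + 4 * j + 1) := by
        rcases (hB (m + 4 * j + 1)).lt_or_eq with h | h
        · exact h
        · rw [← h, zero_mul] at h1; linarith
      refine ⟨m + 4 * j + 1, by omega, by omega, h2, ?_⟩
      show _ ≤ X (m + 4 * j + 2)
      have h3 : Y / (2 * β) ≤ X (m + 4 * j + 2) := by
        rw [div_le_iff₀ (by linarith)]
        have := mul_le_mul_of_nonneg_right (hβ (m + 4 * j + 1)) (hpos (m + 4 * j + 2)).le
        linarith
      refine le_trans ?_ h3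
      refine div_le_div_of_nonneg_left hY.le (by linarith) ?_
      exact le_self_pow₀ h2β (by omega)

/-- From a large state one finds a large value at a recent positive position. -/
theorem find_peak {k : ℕ} (hk : 1 ≤ k) (hper : ∀ n, B (n + k) = B n) (hB : ∀ n, 0 ≤ B n)
    (h : ∀ r, ∃ j, B (r + 4 * j) ≠ 0) {β : ℝ} (hβ1 : 1 ≤ β) (hβ : ∀ n, B n ≤ β)
    (hX : IsSol B X) {n : ℕ} {Y : ℝ} (hY : 0 < Y) (hn : 4 * k + 4 ≤ n) (hrho : Y ≤ rho X n) :
    ∃ p, n ≤ p + 4 * k + 3 ∧ p ≤ n ∧ 0 < B p ∧ Y / (2 * β) ^ (k + 1) ≤ X (p + 1) := by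
  have hpos := sol_pos hB hX
  have h2β : 1 ≤ 2 * β := by linarith
  have hYle : Y / (2 * β) ≤ Y := div_le_self hY.le h2β
  -- a large value at a position `q ∈ [n - 3, n]`
  have hinv : ∀ i, Y ≤ (X (i + 2))⁻¹ → Y / (2 * β) ≤ X (i + 1) ∨ Y / (2 * β) ≤ X i := by
    intro i hi
    rw [inv_eq hX] at hi
    by_contra hcon
    push Not at hcon
    obtain ⟨c1, c2⟩ := hcon
    rw [lt_div_iff₀ (by linarith)] at c1 c2
    have h1 : B i * X (i + 1) ≤ β * X (i + 1) := mul_le_mul_of_nonneg_right (hβ i) (hpos _).le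
    have h2 : X i ≤ X i * β := by nlinarith [hpos i]
    nlinarith
  obtain ⟨q, hq1, hq2, hq3⟩ : ∃ q, n ≤ q + 3 ∧ q ≤ n ∧ Y / (2 * β) ≤ X (q + 1) := by
    have h0 : Y ≤ X n ∨ Y ≤ (X n)⁻¹ ∨ Y ≤ X (n + 1) ∨ Y ≤ (X (n + 1))⁻¹ := by
      unfold rho at hrho
      rcases le_max_iff.mp hrho with h1 | h1 <;> rcases le_max_iff.mp h1 with h2 | h2 <;> tauto
    rcases h0 with h1 | h1 | h1 | h1
    · exact ⟨n - 1, by omega, by omega, by rw [show n - 1 + 1 = n by omega]; linarith⟩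
    · rcases hinv (n - 2) (by rw [show n - 2 + 2 = n by omega]; exact h1) with h2 | h2
      · exact ⟨n - 2, by omega, by omega, h2⟩
      · exact ⟨n - 3, by omega, by omega, by rw [show n - 3 + 1 = n - 2 by omega]; exact h2⟩
    · exact ⟨n, by omega, le_rfl, by linarith⟩
    · rcases hinv (n - 1) (by rw [show n - 1 + 2 = n + 1 by omega]; exact h1) with h2 | h2
      · exact ⟨n - 1, by omega, by omega, h2⟩
      · exact ⟨n - 2, by omega, by omega, by rw [show n - 2 + 1 = n - 1 by omega]; exact h2⟩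
  obtain ⟨i, hik, hi⟩ := exists_lt_period hk hper h (q - 4 * k)
  have hqi : q = (q - 4 * k + 4 * i) + 4 * (k - i) := by omega
  obtain ⟨p, hp1, hp2, hp3, hp4⟩ := backtrack hB hβ1 hβ hX (k - i) (q - 4 * k + 4 * i)
    (Y / (2 * β)) (by positivity) (lt_of_le_of_ne (hB _) (Ne.symm hi))
    (by rw [← hqi]; exact hq3)
  refine ⟨p, by omega, by omega, hp3, le_trans ?_ hp4⟩
  rw [pow_succ, mul_comm, ← div_div]
  exact div_le_div_of_nonneg_left (by positivity) (by positivity)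
    (pow_le_pow_right₀ h2β (by omega))

theorem nxt_le {k : ℕ} (hk : 1 ≤ k) (hper : ∀ n, B (n + k) = B n)
    (h : ∀ r, ∃ j, B (r + 4 * j) ≠ 0) (p : ℕ) : nxt h p ≤ p + 4 * k := by
  have := zr_lt hk hper h p
  unfold nxt
  omega

/-- One step of the chain of positive positions. -/
theorem chain_step {k : ℕ} (hk : 1 ≤ k) (hper : ∀ n, B (n + k) = B n) (hB : ∀ n, 0 ≤ B n)
    (h : ∀ r, ∃ j, B (r + 4 * j) ≠ 0) {β b Γ E M : ℝ} (hc : Consts B k β b Γ E M)
    (hX : IsSol B X) {p : ℕ} (hp : 0 < B p) (hL : M ≤ X (p + 1)) :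
    X (nxt h p) ≤ (X (p + 1))⁻¹ ∧ X (p + 1) / Γ ≤ X (nxt h p + 1) ∧
      (X (nxt h p))⁻¹ ≤ E ^ (k + 1) * X (p + 1) ∧
      (X p ≤ 1 → X (nxt h p + 1) ≤ E ^ (k + 1) / gf h p * X (p + 1)) := by
  have hpos := sol_pos hB hX
  have hE0 : 0 < E := by linarith [hc.hE]
  have ht := zr_zero h p
  have htk := zr_lt hk hper h p
  have hg := gf_pos hB h hp
  have hpow : E ^ (zr h p + 1) ≤ E ^ (k + 1) := pow_le_pow_right₀ hc.hE.le (by omega)
  obtain ⟨l1, l2⟩ := lower_block hB hX (p := p) (t := zr h p) (δ := 0) (by simpa using hp)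
    (by have := (hpos p).le; simpa using this) ht (zr h p) le_rfl
  have u1 := upper_block_one hc hB hX hp hL htk.le ht (zr h p) le_rfl
  rw [cfd_zero_eq] at l2
  have e1 : p + 4 + 4 * zr h p = nxt h p + 1 := by unfold nxt; omega
  rw [e1] at l2
  refine ⟨l1, ?_, ?_, fun hs => ?_⟩
  · refine le_trans ?_ l2
    exact div_le_div_of_nonneg_left (hpos _).le (cf_pos hB hp _)
      (hc.hΓ p hp (2 * zr h p + 1) (by omega)).1
  · have h1 : (X (nxt h p))⁻¹ ≤ E ^ (zr h p + 1) * X (p + 1) := by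
      rw [inv_le_comm₀ (hpos _) (mul_pos (pow_pos hE0 _) (hpos _))]; exact u1
    exact h1.trans (mul_le_mul_of_nonneg_right hpow (hpos _).le)
  · have u2 := upper_block_two hc hB hX hp hL hs htk.le ht (zr h p) le_rfl
    rw [e1] at u2
    refine u2.trans ?_
    show E ^ (zr h p + 1) * X (p + 1) / gf h p ≤ _
    rw [div_mul_eq_mul_div]
    exact div_le_div_of_nonneg_right (mul_le_mul_of_nonneg_right hpow (hpos _).le) hg.le

/-- Boundedness in case `B` vanishes on no residue class modulo four. -/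
theorem bdd_of_no_zero_class {k : ℕ} (hk : 1 ≤ k) (hB : ∀ n, 0 ≤ B n)
    (hper : ∀ n, B (n + k) = B n) (hcyc : CycleCond k B)
    (h : ∀ r, ∃ j, B (r + 4 * j) ≠ 0) (hX : IsSol B X) : Bdd X := by
  obtain ⟨β, hβ1, hβ⟩ := exists_upper hk hper
  obtain ⟨b, hb, hb'⟩ := exists_lower hk hper
  obtain ⟨Γ, hΓ1, hΓ⟩ := exists_Gamma hB hβ1 hβ hb hb' (2 * k + 1)
  obtain ⟨E, hE, hEcyc⟩ := exists_E hk hper hB h hcyc
  have hpos := sol_pos hB hX
  have hΓ0 : 0 < Γ := by linarith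
  have hE1 : 0 < E - 1 := by linarith
  have hE0 : 0 < E := by linarith
  -- choose `M`
  have hM0 : ∃ M : ℝ, 1 ≤ M ∧ Γ ≤ M ∧ 1 ≤ (E - 1) * b * M ∧ β ≤ (E - 1) * b * M ^ 2 ∧
      β * Γ ≤ (E - 1) * M ^ 2 := by
    refine ⟨1 + Γ + 1 / ((E - 1) * b) + β / ((E - 1) * b) + β * Γ / (E - 1), ?_⟩
    have p1 : 0 < 1 / ((E - 1) * b) := by positivity
    have p2 : 0 < β / ((E - 1) * b) := by positivity
    have p3 : 0 < β * Γ / (E - 1) := by positivity
    set M := 1 + Γ + 1 / ((E - 1) * b) + β / ((E - 1) * b) + β * Γ / (E - 1) with hM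
    have hM1 : 1 ≤ M := by linarith
    have hMsq : M ≤ M ^ 2 := by nlinarith
    refine ⟨hM1, by linarith, ?_, ?_, ?_⟩
    · have h1 : 1 / ((E - 1) * b) ≤ M := by linarith
      rw [div_le_iff₀ (by positivity)] at h1
      linarith
    · have h1 : β / ((E - 1) * b) ≤ M ^ 2 := by linarith
      rw [div_le_iff₀ (by positivity)] at h1
      linarith
    · have h1 : β * Γ / (E - 1) ≤ M ^ 2 := by linarith
      rw [div_le_iff₀ hE1] at h1
      linarith
  obtain ⟨M, hM1, hMΓ, hM2, hM3, hM4⟩ := hM0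
  have hc : Consts B k β b Γ E M := ⟨hβ1, hβ, hb, hb', hΓ1, hΓ, hE, hM1, hM2, hM3, hM4⟩
  set F := E ^ (k + 1) with hF
  have hF1 : 1 ≤ F := one_le_pow₀ hE.le
  have hF0 : 0 < F := by linarith
  set G := F * Γ with hG
  have hG1 : 1 ≤ G := by nlinarith
  have hFG : ∀ p, 0 < B p → F / gf h p ≤ G := by
    intro p hp
    have h1 := (hΓ p hp (2 * zr h p + 1) (by have := zr_lt hk hper h p; omega)).2
    have h2 : (gf h p)⁻¹ ≤ Γ := by
      rw [inv_le_comm₀ (gf_pos hB h hp) hΓ0]; exact h1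
    rw [div_eq_mul_inv]
    exact mul_le_mul_of_nonneg_left h2 hF0.le
  have hW : ∀ {p : ℕ}, 0 < B p → ∀ j, Wp h F p j ≤ G ^ k :=
    fun hp => Wp_bound hk hper hB h hF0 hG1 hFG hEcyc hp
  -- the threshold
  set M₂ := max (rho X 0) (G * M * (2 * β) ^ (k + 1)) with hM₂
  have h2β : 1 ≤ (2 * β) ^ (k + 1) := one_le_pow₀ (by linarith)
  have hGM : 0 < G * M := by positivity
  have hM₂a : G * M * (2 * β) ^ (k + 1) ≤ M₂ := le_max_right _ _
  have hM₂b : G * M ≤ M₂ := le_trans (le_mul_of_one_le_right hGM.le h2β) hM₂a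
  have hM₂pos : 0 < M₂ := hGM.trans_le hM₂b
  set K := β + 1 with hK
  have hK1 : 1 ≤ K := by linarith
  set D := 4 * k + 8 with hD
  refine ⟨K ^ (4 * k) * (G * (G ^ k * (K ^ (3 * D) * M₂))), fun n => ?_⟩
  refine (rho_parts n).1.trans ?_
  classical
  set m := Nat.findGreatest (fun m => rho X m ≤ M₂) n with hm
  have hmspec : rho X m ≤ M₂ :=
    Nat.findGreatest_spec (P := fun m => rho X m ≤ M₂) (Nat.zero_le n) (le_max_left _ _)
  have hmle : m ≤ n := Nat.findGreatest_le n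
  have hmgt : ∀ j, m < j → j ≤ n → M₂ < rho X j := by
    intro j hj1 hj2
    have := Nat.findGreatest_is_greatest hj1 hj2
    push Not at this
    exact this
  have hKpow : ∀ i, 1 ≤ K ^ i := fun i => one_le_pow₀ hK1
  have hbase : K ^ (3 * D) * M₂ ≤ K ^ (4 * k) * (G * (G ^ k * (K ^ (3 * D) * M₂))) := by
    have h1 : 0 ≤ K ^ (3 * D) * M₂ := by positivity
    have h2 : 1 ≤ K ^ (4 * k) * (G * G ^ k) :=
      one_le_mul_of_one_le_of_one_le (hKpow _)
        (one_le_mul_of_one_le_of_one_le hG1 (one_le_pow₀ hG1))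
    calc K ^ (3 * D) * M₂ = 1 * (K ^ (3 * D) * M₂) := by ring
      _ ≤ (K ^ (4 * k) * (G * G ^ k)) * (K ^ (3 * D) * M₂) := mul_le_mul_of_nonneg_right h2 h1
      _ = _ := by ring
  by_cases hshort : n ≤ m + 3 * D
  · have h1 := rho_add_le hB hβ1 hβ hX hmle hshort
    exact (h1.trans (mul_le_mul_of_nonneg_left hmspec (by positivity))).trans hbase
  push Not at hshort
  -- find the first peak
  obtain ⟨p, hp1, hp2, hp3, hp4⟩ := find_peak hk hper hB h hβ1 hβ hX (n := m + D) hM₂pos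
    (by omega) (hmgt (m + D) (by omega) (by omega)).le
  have hpL : G * M ≤ X (p + 1) := by
    refine le_trans ?_ hp4
    rw [le_div_iff₀ (by positivity)]
    exact hM₂a
  have hΓG : Γ ≤ G := by nlinarith
  have hMGM : M ≤ G * M := by nlinarith
  obtain ⟨c1, c2, c3, -⟩ := chain_step hk hper hB h hc hX hp3 (hMGM.trans hpL)
  set p₁ := nxt h p with hp₁
  have hp₁pos : 0 < B p₁ := nxt_pos hB h p
  have hp₁le : p₁ ≤ m + 2 * D := by
    have := zr_lt hk hper h p
    rw [hp₁]; unfold nxt; omega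
  have hp₁gt : m < p₁ := by rw [hp₁]; unfold nxt; omega
  -- a general estimate of `rho` at chain positions
  have hrhochain : ∀ {a b' : ℕ}, M ≤ X (a + 1) → X b' ≤ (X (a + 1))⁻¹ →
      X (a + 1) / Γ ≤ X (b' + 1) → (X b')⁻¹ ≤ F * X (a + 1) →
      rho X b' ≤ G * X (b' + 1) ∧ X b' ≤ 1 := by
    intro a b' ha h1 h2 h3
    have ha0 : 0 < X (a + 1) := hpos _
    have h4 : X b' ≤ 1 := h1.trans (inv_le_one_of_one_le₀ (by linarith))
    have h5 : 1 ≤ X (b' + 1) := by
      refine le_trans ?_ h2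
      rw [le_div_iff₀ hΓ0]; linarith
    have h6 : X (a + 1) ≤ Γ * X (b' + 1) := by
      rw [div_le_iff₀ hΓ0] at h2; linarith
    refine ⟨rho_le_iff.mpr ⟨by nlinarith, ?_, by nlinarith, ?_⟩, h4⟩
    · refine h3.trans ?_
      rw [hG, mul_assoc]
      exact mul_le_mul_of_nonneg_left h6 hF0.le
    · have : (X (b' + 1))⁻¹ ≤ 1 := inv_le_one_of_one_le₀ h5
      nlinarith
  -- the chain
  have hchain : ∀ i, (nxt h)^[i] p₁ ≤ n → X ((nxt h)^[i] p₁) ≤ 1 ∧
      M ≤ X ((nxt h)^[i] p₁ + 1) ∧ X ((nxt h)^[i] p₁ + 1) ≤ Wp h F p₁ i * X (p₁ + 1) ∧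
      rho X ((nxt h)^[i] p₁) ≤ G * X ((nxt h)^[i] p₁ + 1) := by
    intro i
    induction i with
    | zero =>
      intro _
      simp only [Function.iterate_zero, id_eq]
      obtain ⟨r1, r2⟩ := hrhochain (hMGM.trans hpL) c1 c2 c3
      refine ⟨r2, ?_, ?_, r1⟩
      · refine le_trans ?_ c2
        rw [le_div_iff₀ hΓ0]
        nlinarith
      · simp [Wp]
    | succ i ih =>
      intro hi
      have hlt := iter_lt h p₁ i
      obtain ⟨i1, i2, i3, i4⟩ := ih (by omega)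
      have hqpos : 0 < B ((nxt h)^[i] p₁) := iter_pos hB h hp₁pos i
      obtain ⟨d1, d2, d3, d4⟩ := chain_step hk hper hB h hc hX hqpos i2
      have d4' := d4 i1
      rw [← Function.iterate_succ_apply' (nxt h) i p₁] at d1 d2 d3 d4'
      obtain ⟨r1, r2⟩ := hrhochain i2 d1 d2 d3
      refine ⟨r2, ?_, ?_, r1⟩
      · by_contra hcon
        push Not at hcon
        have hgt : m < (nxt h)^[i + 1] p₁ := by
          have : ∀ l, p₁ ≤ (nxt h)^[l] p₁ := by
            intro l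
            induction l with
            | zero => simp
            | succ l ihl => exact ihl.trans (iter_lt h p₁ l).le
          exact lt_of_lt_of_le hp₁gt (this _)
        have h1 := hmgt _ hgt hi
        have h2 : G * X ((nxt h)^[i + 1] p₁ + 1) ≤ G * M :=
          mul_le_mul_of_nonneg_left hcon.le (by linarith)
        linarith
      · refine d4'.trans ?_
        unfold Wp
        rw [prod_range_succ, mul_comm (∏ i ∈ range i, _), mul_assoc]
        refine mul_le_mul_of_nonneg_left i3 (div_pos hF0 (gf_pos hB h hqpos)).le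
  -- the last chain position before `n`
  set i := Nat.findGreatest (fun i => (nxt h)^[i] p₁ ≤ n) n with hi
  have hispec : (nxt h)^[i] p₁ ≤ n :=
    Nat.findGreatest_spec (P := fun i => (nxt h)^[i] p₁ ≤ n) (Nat.zero_le n)
      (by simp only [Function.iterate_zero, id_eq]; omega)
  have hige : ∀ l, l ≤ (nxt h)^[l] p₁ := by
    intro l
    induction l with
    | zero => omega
    | succ l ihl => have := iter_lt h p₁ l; omega
  have hinext : n < (nxt h)^[i + 1] p₁ := by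
    by_contra hcon
    push Not at hcon
    have h1 : i + 1 ≤ n := (hige (i + 1)).trans hcon
    exact Nat.findGreatest_is_greatest (P := fun i => (nxt h)^[i] p₁ ≤ n)
      (show Nat.findGreatest (fun i => (nxt h)^[i] p₁ ≤ n) n < i + 1 by omega) h1 hcon
  obtain ⟨-, -, f3, f4⟩ := hchain i hispec
  have hn4 : n ≤ (nxt h)^[i] p₁ + 4 * k := by
    rw [Function.iterate_succ_apply'] at hinext
    have := nxt_le hk hper h ((nxt h)^[i] p₁)
    omega
  have g1 := rho_add_le hB hβ1 hβ hX hispec hn4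
  have g2 : X (p₁ + 1) ≤ K ^ (3 * D) * M₂ := by
    have h1 := rho_add_le hB hβ1 hβ hX hp₁gt.le (show p₁ ≤ m + 3 * D by omega)
    exact ((rho_parts p₁).2.2.1.trans h1).trans
      (mul_le_mul_of_nonneg_left hmspec (by positivity))
  have g3 : Wp h F p₁ i * X (p₁ + 1) ≤ G ^ k * (K ^ (3 * D) * M₂) :=
    mul_le_mul (hW hp₁pos i) g2 (hpos _).le (by positivity)
  calc rho X n ≤ K ^ (4 * k) * rho X ((nxt h)^[i] p₁) := g1
    _ ≤ K ^ (4 * k) * (G * X ((nxt h)^[i] p₁ + 1)) :=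
        mul_le_mul_of_nonneg_left f4 (by positivity)
    _ ≤ K ^ (4 * k) * (G * (G ^ k * (K ^ (3 * D) * M₂))) := by
        refine mul_le_mul_of_nonneg_left ?_ (by positivity)
        exact mul_le_mul_of_nonneg_left (f3.trans g3) (by linarith)

end Pool.Agent.Lib.MP_2c9a54_an
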