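import Mathlib

/-!
# The recurrence `x_{n+1} = 1 / (B_n x_n + x_{n-1})`: definitions (MP_2c9a54_an)
-/

namespace Pool.Agent.Lib.MP_2c9a54_an

/-- `X` is a positive solution of `x_{n+1} = 1 / (B_n x_n + x_{n-1})`, `n ≥ 0`, where
`X n = x_{n-1}`: so `X 0 = x_{-1} > 0` and `X 1 = x_0 > 0` are the initial values. -/
def IsSol (B X : ℕ → ℝ) : Prop :=
  0 < X 0 ∧ 0 < X 1 ∧ ∀ n, X (n + 2) = 1 / (B n * X (n + 1) + X n)

/-- The continued fraction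
`[B_{p+2j}; B_{p+2j-2}, …, B_{p+2}, B_p] = B_{p+2j} + 1/(B_{p+2j-2} + 1/(⋯ + 1/B_p))`. -/
noncomputable def cf (B : ℕ → ℝ) (p : ℕ) : ℕ → ℝ
  | 0 => B p
  | j + 1 => B (p + 2 * (j + 1)) + 1 / cf B p j

/-- The class condition: if `B_n = 0` for all `n ≡ r` modulo `4`, then `B_n = 0` for all
`n ≡ r + 2` modulo `4` (for `r = 0, 1, 2, 3`). -/
def ClassCond (B : ℕ → ℝ) : Prop :=
  ∀ r < 4, (∀ n, n % 4 = r → B n = 0) → ∀ n, n % 4 = (r + 2) % 4 → B n = 0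

/-- The cycle condition.  Consider positions `p 0 < k` and `p 1, …, p J` (with `1 ≤ J ≤ k`) such
that, for every `i < J`, `B_{p i} > 0`, `B` vanishes at `p i + 3, p i + 7, …, p i + 4 t_i - 1`, and
`p (i+1) = p i + 3 + 4 t_i`; assume that `p J ≡ p 0` modulo `k`.  Then the product over `i < J` of
the continued fractions `[B_{p(i+1)-1}; B_{p(i+1)-3}, …, B_{p i}]` is larger than one. -/
def CycleCond (k : ℕ) (B : ℕ → ℝ) : Prop :=
  ∀ J, 1 ≤ J → J ≤ k → ∀ p t : ℕ → ℕ, p 0 < k →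
    (∀ i < J, 0 < B (p i) ∧ (∀ j < t i, B (p i + 3 + 4 * j) = 0) ∧
      p (i + 1) = p i + 3 + 4 * t i) →
    p J ≡ p 0 [MOD k] → 1 < ∏ i ∈ Finset.range J, cf B (p i) (2 * t i + 1)

/-- `X` is bounded above. -/
def Bdd (X : ℕ → ℝ) : Prop := ∃ C, ∀ n, X n ≤ C

end Pool.Agent.Lib.MP_2c9a54_an
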