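import Pool.Agent.Lib.MP_2c9a54_an.Basic

/-!
# Failure of the condition makes every positive solution unbounded
-/

namespace Pool.Agent.Lib.MP_2c9a54_an

open Finset

variable {B X : ℕ → ℝ}

theorem not_bdd_of_grow {X : ℕ → ℝ} {c : ℝ} (hc : 0 < c) (u : ℕ → ℕ)
    (h : ∀ C : ℝ, ∃ m, C < c * X (u m)) : ¬ Bdd X := by
  rintro ⟨C, hC⟩
  obtain ⟨m, hm⟩ := h (c * C)
  have := hC (u m)
  nlinarith

/-- If the class condition fails, every positive solution is unbounded. -/
theorem unbdd_of_class {k : ℕ} (hk : 1 ≤ k) (hB : ∀ n, 0 ≤ B n) (hper : ∀ n, B (n + k) = B n)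
    {r : ℕ} (hr : ∀ j, B (r + 4 * j) = 0) {j₀ : ℕ} (hj₀ : B (r + 2 + 4 * j₀) ≠ 0)
    (hX : IsSol B X) : ¬ Bdd X := by
  intro hb
  obtain ⟨β, hβ1, hβ⟩ := exists_upper hk hper
  obtain ⟨c, hc, hlow⟩ := lower_of_bdd hB hβ hX hb
  have hpos := sol_pos hB hX
  set d := B (r + 2 + 4 * j₀) * c with hd
  have hdpos : 0 < d := mul_pos (lt_of_le_of_ne (hB _) (Ne.symm hj₀)) hc
  -- the quantity `w_j = 1 / x_{r+4j-1}`
  have hstep : ∀ j, (X (r + 4 * (j + 1)))⁻¹ = (X (r + 4 * j))⁻¹ +
      B (r + 2 + 4 * j) * X (r + 3 + 4 * j) := by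
    intro j
    have e1 : X (r + 4 * j + 2) = (X (r + 4 * j))⁻¹ := eq_inv_of_zero hX (hr j)
    rw [show r + 4 * (j + 1) = r + 2 + 4 * j + 2 by ring, inv_eq hX,
      show r + 2 + 4 * j + 1 = r + 3 + 4 * j by ring,
      show r + 2 + 4 * j = r + 4 * j + 2 by ring, e1]
    ring
  have hmono : ∀ j, (X (r + 4 * j))⁻¹ ≤ (X (r + 4 * (j + 1)))⁻¹ := by
    intro j
    rw [hstep]
    have := mul_nonneg (hB (r + 2 + 4 * j)) (hpos (r + 3 + 4 * j)).le
    linarith
  have hmono' : Monotone (fun j => (X (r + 4 * j))⁻¹) := monotone_nat_of_le_succ hmono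
  have hgrow : ∀ m : ℕ, (m : ℝ) * d ≤ (X (r + 4 * (j₀ + m * k)))⁻¹ := by
    intro m
    induction m with
    | zero =>
      have := inv_pos.mpr (hpos (r + 4 * (j₀ + 0 * k)))
      push_cast
      linarith
    | succ m ih =>
      have h1 := hstep (j₀ + m * k)
      have h2 : B (r + 2 + 4 * (j₀ + m * k)) = B (r + 2 + 4 * j₀) := by
        rw [show r + 2 + 4 * (j₀ + m * k) = r + 2 + 4 * j₀ + (4 * m) * k by ring]
        exact per_mul hper _ _
      have h3 : d ≤ B (r + 2 + 4 * (j₀ + m * k)) * X (r + 3 + 4 * (j₀ + m * k)) := by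
        rw [h2]
        exact mul_le_mul_of_nonneg_left (hlow _) (hB _)
      have h4 : (X (r + 4 * (j₀ + m * k + 1)))⁻¹ ≤ (X (r + 4 * (j₀ + (m + 1) * k)))⁻¹ := by
        apply hmono'
        have : (m + 1) * k = m * k + k := by ring
        omega
      push_cast
      linarith
  obtain ⟨m, hm⟩ := exists_nat_gt (c⁻¹ / d)
  have h5 := hgrow m
  have h6 : (X (r + 4 * (j₀ + m * k)))⁻¹ ≤ c⁻¹ := by
    rw [inv_le_inv₀ (hpos _) hc]; exact hlow _
  rw [div_lt_iff₀ hdpos] at hm
  linarith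

/-- If the cycle condition fails, every positive solution is unbounded. -/
theorem unbdd_of_cycle {k : ℕ} (hk : 1 ≤ k) (hB : ∀ n, 0 ≤ B n) (hper : ∀ n, B (n + k) = B n)
    {J : ℕ} {p t : ℕ → ℕ} (hJ : 1 ≤ J)
    (hpt : ∀ i < J, 0 < B (p i) ∧ (∀ j < t i, B (p i + 3 + 4 * j) = 0) ∧
      p (i + 1) = p i + 3 + 4 * t i)
    (hmod : p J ≡ p 0 [MOD k])
    (hprod : ∏ i ∈ range J, cf B (p i) (2 * t i + 1) ≤ 1) (hX : IsSol B X) : ¬ Bdd X := by
  intro hb
  obtain ⟨β, hβ1, hβ⟩ := exists_upper hk hper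
  obtain ⟨c, hc, hlow⟩ := lower_of_bdd hB hβ hX hb
  obtain ⟨C, hC⟩ := hb
  have hpos := sol_pos hB hX
  have hCpos : 0 < C := (hpos 0).trans_le (hC 0)
  set δ := c / C with hδdef
  have hδ : 0 < δ := div_pos hc hCpos
  -- the period of the cycle
  have hle : ∀ i ≤ J, p 0 ≤ p i := by
    intro i
    induction i with
    | zero => intro _; exact le_rfl
    | succ i ih =>
      intro hi
      have h1 := ih (by omega)
      have h2 := (hpt i (by omega)).2.2
      omega
  obtain ⟨c', hc'⟩ := (Nat.modEq_iff_dvd' (hle J le_rfl)).mp hmod.symm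
  set P := p J - p 0 with hP
  have hPper : ∀ M n, B (n + M * P) = B n := by
    intro M n
    rw [hc', show n + M * (k * c') = n + (M * c') * k by ring]
    exact per_mul hper _ _
  have hpJ : p J = p 0 + P := by have := hle J le_rfl; omega
  -- one step
  have hone : ∀ M : ℕ, ∀ i < J,
      X (p i + M * P + 1) / cfd B (p i) δ (2 * t i + 1) ≤ X (p (i + 1) + M * P + 1) := by
    intro M i hi
    obtain ⟨h1, h2, h3⟩ := hpt i hi
    have h4 : δ * X (p i + M * P + 1) ≤ X (p i + M * P) := by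
      have e1 : δ * X (p i + M * P + 1) ≤ δ * C := mul_le_mul_of_nonneg_left (hC _) hδ.le
      have e2 : δ * C = c := by rw [hδdef]; field_simp
      linarith [hlow (p i + M * P)]
    have h5 := lower_block hB hX (p := p i + M * P) (t := t i) (δ := δ)
      (by rw [hPper]; linarith) h4 (by
        intro j hj
        rw [show p i + M * P + 3 + 4 * j = p i + 3 + 4 * j + M * P by ring, hPper]
        exact h2 j hj) (t i) le_rfl
    rw [cfd_shift (hPper M)] at h5
    rw [show p (i + 1) + M * P + 1 = p i + M * P + 4 + 4 * t i by rw [h3]; ring]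
    exact h5.2
  have hcpos : ∀ i < J, 0 < cfd B (p i) δ (2 * t i + 1) := fun i hi =>
    cfd_pos hB (by linarith [(hpt i hi).1]) _
  -- several steps
  have hseveral : ∀ M : ℕ, ∀ i ≤ J, X (p 0 + M * P + 1) ≤
      (∏ l ∈ range i, cfd B (p l) δ (2 * t l + 1)) * X (p i + M * P + 1) := by
    intro M i
    induction i with
    | zero => intro _; simp
    | succ i ih =>
      intro hi
      have h1 := ih (by omega)
      have h2 := hone M i (by omega)
      have h3 := hcpos i (by omega)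
      have h4 : 0 < ∏ l ∈ range i, cfd B (p l) δ (2 * t l + 1) :=
        prod_pos fun l hl => hcpos l (by have := mem_range.mp hl; omega)
      rw [prod_range_succ, mul_assoc]
      refine h1.trans (mul_le_mul_of_nonneg_left ?_ h4.le)
      rw [div_le_iff₀ h3] at h2
      linarith
  set r := ∏ l ∈ range J, cfd B (p l) δ (2 * t l + 1) with hr
  have hrpos : 0 < r := prod_pos fun l hl => hcpos l (mem_range.mp hl)
  have hr1 : r < 1 := by
    refine lt_of_lt_of_le ?_ hprod
    refine prod_lt_prod_of_nonempty (fun l hl => hcpos l (mem_range.mp hl)) (fun l hl => ?_)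
      ⟨0, mem_range.mpr (by omega)⟩
    exact (cfd_lt hB (hpt l (mem_range.mp hl)).1 hδ (t l)).2
  have hgrow : ∀ M : ℕ, X (p 0 + 1) ≤ r ^ M * X (p 0 + M * P + 1) := by
    intro M
    induction M with
    | zero => simp
    | succ M ih =>
      have h1 := hseveral M J le_rfl
      rw [show p J + M * P + 1 = p 0 + (M + 1) * P + 1 by rw [hpJ]; ring] at h1
      calc X (p 0 + 1) ≤ r ^ M * X (p 0 + M * P + 1) := ih
        _ ≤ r ^ M * (r * X (p 0 + (M + 1) * P + 1)) :=
            mul_le_mul_of_nonneg_left h1 (pow_nonneg hrpos.le _)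
        _ = r ^ (M + 1) * X (p 0 + (M + 1) * P + 1) := by ring
  obtain ⟨M, hM⟩ := exists_pow_lt_of_lt_one (show 0 < X (p 0 + 1) / C from
    div_pos (hpos _) hCpos) hr1
  have h1 := hgrow M
  have h2 : r ^ M * X (p 0 + M * P + 1) ≤ r ^ M * C :=
    mul_le_mul_of_nonneg_left (hC _) (pow_nonneg hrpos.le _)
  rw [lt_div_iff₀ hCpos] at hM
  linarith

end Pool.Agent.Lib.MP_2c9a54_an
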